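import Pool.Agent.E8helper9.NL.Rel

/-!
# Algebras all of whose proper subalgebras are nilpotent: sums of ideals of bounded index
-/

set_option autoImplicit false

namespace Pool.Agent.E8helper9.NL

open Submodule

section unital

variable {F R : Type*} [Field F] [Ring R] [Algebra F R]

theorem IsId.pow {A V : Submodule F R} (hV : IsId A V) {n : ℕ} (hn : 1 ≤ n) :
    IsId A (V ^ n) := by
  induction n, hn using Nat.le_induction with
  | base => rw [pow_one]; exact hV
  | succ n _ ih =>
    refine ⟨?_, ?_, ?_⟩
    · rw [pow_succ]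
      exact le_trans (mul_le_mul_right hV.le _) (le_trans ih.right ih.le)
    · rw [pow_succ, ← mul_assoc]
      exact mul_le_mul_left ih.left _
    · rw [pow_succ, mul_assoc]
      exact mul_le_mul_right hV.right _

theorem IsId.iSup {A : Submodule F R} {ι : Sort*} {V : ι → Submodule F R}
    (hV : ∀ i, IsId A (V i)) : IsId A (⨆ i, V i) where
  le := iSup_le fun i => (hV i).le
  left := by
    rw [Submodule.mul_iSup]
    exact iSup_mono fun i => (hV i).left
  right := by
    rw [Submodule.iSup_mul]
    exact iSup_mono fun i => (hV i).right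

/-- the Baer chain: `lev 0 = 0`, and `lev (m + 1)` is the sum of the ideals with square in `lev m` -/
def lev (A : Submodule F R) : ℕ → Submodule F R
  | 0 => ⊥
  | m + 1 => ⨆ V : {V : Submodule F R // IsId A V ∧ V * V ≤ lev A m}, V.1

theorem lev_id (A : Submodule F R) (m : ℕ) : IsId A (lev A m) := by
  cases m with
  | zero => exact ⟨bot_le, by rw [lev, Submodule.mul_bot], by rw [lev, Submodule.bot_mul]⟩
  | succ m => exact IsId.iSup fun V => V.2.1

/-- If `A = A²` and all proper subalgebras are nilpotent, then `A` has no finite Baer height, or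
`A = 0`. -/
theorem le_bot_of_lev {A : Submodule F R} (hAA : A * A = A)
    (H : ∀ B : Submodule F R, B ≤ A → B * B ≤ B → B ≠ A →
      ∃ n : ℕ, ∀ l : List R, (∀ x ∈ l, x ∈ B) → l.length = n → l.prod = 0) (m : ℕ)
    (h : A ≤ lev A m) : A ≤ ⊥ := by
  induction m with
  | zero => exact h
  | succ m ih => exact ih (rel hAA (lev_id A m) H h)

theorem le_lev_of_pow {A : Submodule F R} (m : ℕ) : ∀ (i : ℕ) (V : Submodule F R), IsId A V →
    V ^ (2 ^ m) ≤ lev A i → V ≤ lev A (i + m) := by
  induction m with
  | zero =>
    intro i V _ h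
    rwa [pow_zero, pow_one] at h
  | succ m ih =>
    intro i V hV h
    have h1 : IsId A (V ^ (2 ^ m)) := hV.pow Nat.one_le_two_pow
    have h2 : V ^ (2 ^ m) * V ^ (2 ^ m) ≤ lev A i := by
      rwa [pow_succ, pow_mul, pow_two] at h
    have h3 : V ^ (2 ^ m) ≤ lev A (i + 1) :=
      le_iSup (fun V : {V : Submodule F R // IsId A V ∧ V * V ≤ lev A i} => V.1) ⟨_, h1, h2⟩
    have h4 := ih (i + 1) V hV h3
    have e : i + 1 + m = i + (m + 1) := by omega
    rwa [e] at h4

theorem pow_le_span (X : Submodule F R) (n : ℕ) : X ^ n ≤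
    Submodule.span F {x | ∃ l : List R, (∀ y ∈ l, y ∈ X) ∧ l.length = n ∧ l.prod = x} := by
  induction n with
  | zero =>
    rw [pow_zero, Submodule.one_le]
    exact Submodule.subset_span ⟨[], by simp, rfl, rfl⟩
  | succ n ih =>
    rw [pow_succ]
    refine le_trans (mul_le_mul_left ih _) ?_
    rw [Submodule.mul_le]
    intro m hm x hx
    have h1 : Submodule.span F {x | ∃ l : List R, (∀ y ∈ l, y ∈ X) ∧ l.length = n ∧ l.prod = x} ≤
        (Submodule.span F {x | ∃ l : List R, (∀ y ∈ l, y ∈ X) ∧ l.length = n + 1 ∧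
          l.prod = x}).comap (LinearMap.mulRight F x) := by
      refine Submodule.span_le.2 ?_
      rintro _ ⟨l, hl, hlen, rfl⟩
      refine Submodule.subset_span ⟨l ++ [x], ?_, by simp [hlen], by simp⟩
      intro y hy
      rw [List.mem_append, List.mem_singleton] at hy
      rcases hy with hy | rfl
      · exact hl y hy
      · exact hx
    exact h1 hm

theorem pow_eq_bot (X : Submodule F R) (n : ℕ)
    (h : ∀ l : List R, (∀ y ∈ l, y ∈ X) → l.length = n → l.prod = 0) : X ^ n ≤ ⊥ := by
  refine le_trans (pow_le_span X n) (Submodule.span_le.2 ?_)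
  rintro _ ⟨l, hl, hlen, rfl⟩
  rw [h l hl hlen]
  exact Submodule.zero_mem _

end unital

section nonunital

theorem foldl_map_mul {A R : Type*} [Mul A] [Mul R] (g : A → R)
    (hg : ∀ x y, g (x * y) = g x * g y) (l : List A) (a : A) :
    (l.map g).foldl (fun x y => x * y) (g a) = g (l.foldl (fun x y => x * y) a) := by
  induction l generalizing a with
  | nil => rfl
  | cons b l ih => rw [List.map_cons, List.foldl_cons, List.foldl_cons, ← hg, ih]

theorem prod_cons_eq {R : Type*} [Monoid R] (a : R) (l : List R) :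
    (a :: l).prod = l.foldl (fun x y => x * y) a := by
  rw [List.prod_eq_foldl, List.foldl_cons, one_mul]

theorem pair_up {A : Type*} [Semigroup A] (n : ℕ) (b : A) (l : List A) (hl : l.length = 2 * n) :
    ∃ l' : List A, l'.length = n ∧ (∀ x ∈ l', ∃ y z : A, x = y * z) ∧
      l'.foldl (fun x y => x * y) b = l.foldl (fun x y => x * y) b := by
  induction n generalizing b l with
  | zero =>
    have : l = [] := List.length_eq_zero_iff.1 (by omega)
    subst this
    exact ⟨[], rfl, by simp, rfl⟩
  | succ n ih =>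
    match l, hl with
    | y :: z :: l, hl =>
      obtain ⟨l', h1, h2, h3⟩ := ih (b * (y * z)) l (by
        simp only [List.length_cons] at hl
        omega)
      refine ⟨(y * z) :: l', by rw [List.length_cons, h1], ?_, ?_⟩
      · intro x hx
        rw [List.mem_cons] at hx
        rcases hx with rfl | hx
        · exact ⟨y, z, rfl⟩
        · exact h2 x hx
      · rw [List.foldl_cons, h3, List.foldl_cons, List.foldl_cons, mul_assoc]
    | [y], hl => simp at hl; omega
    | [], hl => simp at hl

/-- all products of `n + 1` elements of `S` vanish -/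
def NilAt {A : Type*} [Mul A] [Zero A] (S : Set A) (n : ℕ) : Prop :=
  ∀ a ∈ S, ∀ l : List A, (∀ x ∈ l, x ∈ S) → l.length = n → l.foldl (fun x y => x * y) a = 0

variable {F A C : Type*} [Field F]
  [NonUnitalRing A] [Module F A] [IsScalarTower F A A] [SMulCommClass F A A]
  [NonUnitalRing C] [Module F C] [IsScalarTower F C C] [SMulCommClass F C C]

/-- the products of two elements span a subalgebra -/
def sq (F A : Type*) [Field F] [NonUnitalRing A] [Module F A] [IsScalarTower F A A]
    [SMulCommClass F A A] : NonUnitalSubalgebra F A where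
  __ := Submodule.span F {x : A | ∃ y z : A, x = y * z}
  mul_mem' := by
    intro a b _ _
    exact Submodule.subset_span ⟨a, b, rfl⟩

theorem mem_sq {a : A} : a ∈ sq F A ↔ a ∈ Submodule.span F {x : A | ∃ y z : A, x = y * z} :=
  Iff.rfl

/-- if `A²` is nilpotent then `A` is nilpotent -/
theorem nil_of_sq {n : ℕ} (h : NilAt (sq F A : Set A) n) : NilAt (Set.univ : Set A) (2 * n + 1) := by
  intro a _ l _ hlen
  match l, hlen with
  | b :: l, hlen =>
    obtain ⟨l', h1, h2, h3⟩ := pair_up n (a * b) l (by
      rw [List.length_cons] at hlen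
      omega)
    rw [List.foldl_cons, ← h3]
    refine h (a * b) (Submodule.subset_span ⟨a, b, rfl⟩) l' (fun x hx => ?_) h1
    obtain ⟨y, z, rfl⟩ := h2 x hx
    exact Submodule.subset_span ⟨y, z, rfl⟩
  | [], hlen => simp at hlen

/-- two-sided ideals of index at most `k + 1` -/
structure SmallIdeal (k : ℕ) (I : Submodule F C) : Prop where
  left : ∀ y ∈ I, ∀ b : C, b * y ∈ I
  right : ∀ y ∈ I, ∀ b : C, y * b ∈ I
  nil : NilAt (I : Set C) k

/-- the Baer chain of `C`: `baer 0 = 0`, and `baer (m + 1)` is the sum of the two-sided ideals whose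
square is contained in `baer m` -/
def baer (F C : Type*) [Field F] [NonUnitalRing C] [Module F C] : ℕ → Submodule F C
  | 0 => ⊥
  | m + 1 => ⨆ V : {V : Submodule F C // (∀ y ∈ V, ∀ b : C, b * y ∈ V ∧ y * b ∈ V) ∧
      ∀ y ∈ V, ∀ z ∈ V, y * z ∈ baer F C m}, V.1

theorem main (f : A →ₙₐ[F] C) (hf : Function.Surjective f) [Nontrivial C]
    (hprop : ∀ B : NonUnitalSubalgebra F A, B ≠ ⊤ → ∃ n : ℕ, NilAt (B : Set A) n)
    (hk : (∃ m : ℕ, baer F C m = ⊤) ∨
      ∃ k : ℕ, (⨆ I : {I : Submodule F C // SmallIdeal k I}, I.1) = ⊤) :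
    ∃ n : ℕ, NilAt (Set.univ : Set A) n := by
  classical
  by_cases hsq : sq F A = ⊤
  swap
  · obtain ⟨n, hn⟩ := hprop _ hsq
    exact ⟨2 * n + 1, nil_of_sq hn⟩
  exfalso
  -- the unitization
  let ι : C →ₗ[F] Unitization F C := Unitization.inrHom F F C
  have hι : ∀ x y : C, ι (x * y) = ι x * ι y := fun x y => Unitization.inr_mul F x y
  have hinj : Function.Injective ι := Unitization.inr_injective
  set R := Unitization F C with hR
  set X : Submodule F R := LinearMap.range ι with hX
  have hmemX : ∀ c, ι c ∈ X := fun c => ⟨c, rfl⟩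
  have hXX : X * X = X := by
    apply le_antisymm
    · rw [Submodule.mul_le]
      rintro _ ⟨x, rfl⟩ _ ⟨y, rfl⟩
      exact ⟨x * y, hι x y⟩
    · rintro _ ⟨c, rfl⟩
      obtain ⟨a, rfl⟩ := hf c
      have ha : a ∈ sq F A := by rw [hsq]; trivial
      rw [mem_sq] at ha
      have h1 : Submodule.span F {x : A | ∃ y z : A, x = y * z} ≤
          (X * X).comap (ι ∘ₗ (f : A →ₗ[F] C)) := by
        refine Submodule.span_le.2 ?_
        rintro _ ⟨y, z, rfl⟩
        change ι (f (y * z)) ∈ X * X
        rw [map_mul, hι]
        exact Submodule.mul_mem_mul (hmemX _) (hmemX _)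
      exact h1 ha
  have H : ∀ B : Submodule F R, B ≤ X → B * B ≤ B → B ≠ X →
      ∃ n : ℕ, ∀ l : List R, (∀ x ∈ l, x ∈ B) → l.length = n → l.prod = 0 := by
    intro B hBX hBB hne
    let B₀ : NonUnitalSubalgebra F A :=
      { carrier := {a | ι (f a) ∈ B}
        add_mem' := by
          intro a b ha hb
          simp only [Set.mem_ofPred_eq, map_add]
          exact B.add_mem ha hb
        zero_mem' := by simp
        mul_mem' := by
          intro a b ha hb
          simp only [Set.mem_ofPred_eq, map_mul, hι]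
          exact hBB (Submodule.mul_mem_mul ha hb)
        smul_mem' := by
          intro c a ha
          simp only [Set.mem_ofPred_eq, map_smul]
          exact B.smul_mem c ha }
    have hB₀ : B₀ ≠ ⊤ := by
      intro htop
      apply hne
      apply le_antisymm hBX
      rintro _ ⟨c, rfl⟩
      obtain ⟨a, rfl⟩ := hf c
      have ha : a ∈ B₀ := by rw [htop]; trivial
      exact ha
    obtain ⟨n, hn⟩ := hprop B₀ hB₀
    refine ⟨n + 1, fun l hl hlen => ?_⟩
    have hlift : ∀ l : List R, (∀ x ∈ l, x ∈ B) →
        ∃ l' : List A, (∀ x ∈ l', x ∈ (B₀ : Set A)) ∧ l'.map (fun a => ι (f a)) = l := by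
      intro l
      induction l with
      | nil => exact fun _ => ⟨[], by simp, rfl⟩
      | cons x l ih =>
        intro h
        obtain ⟨l', h1, h2⟩ := ih fun y hy => h y (List.mem_cons_of_mem x hy)
        obtain ⟨c, hc⟩ := hBX (h x List.mem_cons_self)
        obtain ⟨a, rfl⟩ := hf c
        refine ⟨a :: l', ?_, by rw [List.map_cons, h2, hc]⟩
        intro y hy
        rw [List.mem_cons] at hy
        rcases hy with rfl | hy
        · change ι (f y) ∈ B
          rw [hc]
          exact h x List.mem_cons_self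
        · exact h1 y hy
    match l, hl, hlen with
    | x :: l, hl, hlen =>
      obtain ⟨l', h1, h2⟩ := hlift (x :: l) hl
      match l', h1, h2 with
      | a :: l', h1, h2 =>
        rw [← h2, List.map_cons, prod_cons_eq, foldl_map_mul (fun a => ι (f a))
          (fun x y => by simp only [map_mul, hι])]
        rw [hn a (h1 a List.mem_cons_self) l' (fun y hy => h1 y (List.mem_cons_of_mem a hy)) (by
          have h3 := congrArg List.length h2
          rw [List.length_map, List.length_cons, hlen] at h3
          omega), map_zero, map_zero]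
      | [], h1, h2 => simp at h2
    | [], hl, hlen => simp at hlen
  -- the ideals
  have hlev : ∃ m, X ≤ lev X m := by
    rcases hk with ⟨m, hm⟩ | ⟨k, hk⟩
    · refine ⟨m, ?_⟩
      have hle : ∀ m, (baer F C m).map ι ≤ lev X m := by
        intro m
        induction m with
        | zero => rw [baer, Submodule.map_bot]; exact bot_le
        | succ m ih =>
          rw [baer, Submodule.map_iSup]
          refine iSup_le ?_
          rintro ⟨V, hV, hVV⟩
          have hid : IsId X (V.map ι) := by
            refine ⟨?_, ?_, ?_⟩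
            · rintro _ ⟨y, _, rfl⟩
              exact hmemX y
            · rw [Submodule.mul_le]
              rintro _ ⟨b, rfl⟩ _ ⟨y, hy, rfl⟩
              exact ⟨b * y, (hV y hy b).1, hι b y⟩
            · rw [Submodule.mul_le]
              rintro _ ⟨y, hy, rfl⟩ _ ⟨b, rfl⟩
              exact ⟨y * b, (hV y hy b).2, hι y b⟩
          have hsqr : V.map ι * V.map ι ≤ lev X m := by
            rw [Submodule.mul_le]
            rintro _ ⟨y, hy, rfl⟩ _ ⟨z, hz, rfl⟩
            exact ih ⟨y * z, hVV y hy z hz, hι y z⟩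
          exact le_iSup (fun V : {V : Submodule F R // IsId X V ∧ V * V ≤ lev X m} => V.1)
            ⟨_, hid, hsqr⟩
      have h1 : X = (baer F C m).map ι := by rw [hm, Submodule.map_top]
      exact h1.le.trans (hle m)
    refine ⟨k + 1, ?_⟩
    have h1 : X = (⨆ I : {I : Submodule F C // SmallIdeal k I}, I.1).map ι := by
      rw [hk, Submodule.map_top]
    refine h1.le.trans ?_
    rw [Submodule.map_iSup]
    refine iSup_le ?_
    rintro ⟨I, hI⟩
    have hid : IsId X (I.map ι) := by
      refine ⟨?_, ?_, ?_⟩
      · rintro _ ⟨y, _, rfl⟩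
        exact hmemX y
      · rw [Submodule.mul_le]
        rintro _ ⟨b, rfl⟩ _ ⟨y, hy, rfl⟩
        exact ⟨b * y, hI.left y hy b, hι b y⟩
      · rw [Submodule.mul_le]
        rintro _ ⟨y, hy, rfl⟩ _ ⟨b, rfl⟩
        exact ⟨y * b, hI.right y hy b, hι y b⟩
    have hnil : (I.map ι) ^ (k + 1) ≤ ⊥ := by
      apply pow_eq_bot
      intro l hl hlen
      have hlift : ∀ l : List R, (∀ x ∈ l, x ∈ I.map ι) →
          ∃ l' : List C, (∀ x ∈ l', x ∈ (I : Set C)) ∧ l'.map ι = l := by
        intro l
        induction l with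
        | nil => exact fun _ => ⟨[], by simp, rfl⟩
        | cons x l ih =>
          intro h
          obtain ⟨l', h1, h2⟩ := ih fun y hy => h y (List.mem_cons_of_mem x hy)
          obtain ⟨c, hcI, hc⟩ := h x List.mem_cons_self
          refine ⟨c :: l', ?_, by rw [List.map_cons, h2, hc]⟩
          intro y hy
          rw [List.mem_cons] at hy
          rcases hy with rfl | hy
          · exact hcI
          · exact h1 y hy
      obtain ⟨l', h1, h2⟩ := hlift l hl
      match l', h1, h2 with
      | a :: l', h1, h2 =>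
        rw [← h2, List.map_cons, prod_cons_eq, foldl_map_mul ι hι]
        rw [hI.nil a (h1 a List.mem_cons_self) l' (fun y hy => h1 y (List.mem_cons_of_mem a hy)) (by
          have h3 := congrArg List.length h2
          rw [List.length_map, List.length_cons, hlen] at h3
          omega), map_zero]
      | [], h1, h2 =>
        rw [← h2] at hlen
        simp at hlen
    have hnil' : (I.map ι) ^ (2 ^ (k + 1)) ≤ ⊥ := by
      have hle : k + 1 ≤ 2 ^ (k + 1) := Nat.lt_two_pow_self.le
      obtain ⟨j, hj⟩ := Nat.exists_eq_add_of_le hle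
      rw [hj, pow_add]
      rw [le_bot_iff] at hnil
      rw [hnil, Submodule.bot_mul]
    have h4 := le_lev_of_pow (k + 1) 0 (I.map ι) hid hnil'
    rwa [zero_add] at h4
  obtain ⟨m, hm⟩ := hlev
  have hfin := le_bot_of_lev hXX H m hm
  obtain ⟨c, hc⟩ := exists_ne (0 : C)
  apply hc
  apply hinj
  rw [map_zero]
  exact hfin (hmemX c)

end nonunital

end Pool.Agent.E8helper9.NL
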