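import Mathlib

/-!
# Algebras all of whose proper subalgebras are nilpotent: sums of ideals of bounded index

`A` is a subspace closed under multiplication of a unital algebra `R` over a field `F`.
-/

set_option autoImplicit false

namespace Pool.Agent.E8helper9.NL

open Submodule

variable {F R : Type*} [Field F] [Ring R] [Algebra F R]

/-- `V` is a two-sided ideal of `A` -/
structure IsId (A V : Submodule F R) : Prop where
  le : V ≤ A
  left : A * V ≤ V
  right : V * A ≤ V

theorem IsId.sup {A V W : Submodule F R} (hV : IsId A V) (hW : IsId A W) : IsId A (V ⊔ W) where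
  le := sup_le hV.le hW.le
  left := by
    rw [Submodule.mul_sup]
    exact sup_le_sup hV.left hW.left
  right := by
    rw [Submodule.sup_mul]
    exact sup_le_sup hV.right hW.right

theorem IsId.pow_mul_le {A V W : Submodule F R} (hV : V ≤ A) (hW : IsId A W) (n : ℕ) :
    V ^ n * W ≤ W := by
  induction n with
  | zero => rw [pow_zero, one_mul]
  | succ n ih =>
    rw [pow_succ, mul_assoc]
    exact le_trans (mul_le_mul_right (le_trans (mul_le_mul_left hV W) hW.left) _) ih

theorem IsId.mul_pow_le {A V W : Submodule F R} (hV : V ≤ A) (hW : W * A ≤ W) (n : ℕ) :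
    W * V ^ n ≤ W := by
  induction n with
  | zero => rw [pow_zero, mul_one]
  | succ n ih =>
    rw [pow_succ, ← mul_assoc]
    exact le_trans (mul_le_mul_left ih _) (le_trans (mul_le_mul_right hV _) hW)

theorem sup_pow_le {A V W : Submodule F R} (hV : IsId A V) (hW : IsId A W) (n : ℕ) :
    (V ⊔ W) ^ n ≤ V ^ n ⊔ W := by
  induction n with
  | zero => rw [pow_zero, pow_zero]; exact le_sup_left
  | succ n ih =>
    rw [pow_succ]
    refine le_trans (mul_le_mul_left ih _) ?_
    rw [Submodule.sup_mul, Submodule.mul_sup, Submodule.mul_sup]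
    refine sup_le (sup_le ?_ ?_) (sup_le ?_ ?_)
    · rw [← pow_succ]; exact le_sup_left
    · exact le_trans (IsId.pow_mul_le hV.le hW n) le_sup_right
    · exact le_trans (le_trans (mul_le_mul_right hV.le _) hW.right) le_sup_right
    · exact le_trans (le_trans (mul_le_mul_right hW.le _) hW.right) le_sup_right

theorem sub_pow_mono {X Y : Submodule F R} (h : X ≤ Y) (n : ℕ) : X ^ n ≤ Y ^ n := by
  induction n with
  | zero => rw [pow_zero, pow_zero]
  | succ n ih =>
    rw [pow_succ, pow_succ]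
    exact mul_le_mul' ih h

theorem nil_sup {A J V W : Submodule F R} (hJ : IsId A J) (hV : IsId A V) (hW : IsId A W)
    {n m : ℕ} (hn : V ^ n ≤ J) (hm : W ^ m ≤ J) : (V ⊔ W) ^ (n * m) ≤ J := by
  have h1 : (V ⊔ W) ^ n ≤ W ⊔ J := le_trans (sup_pow_le hV hW n)
    (sup_le (le_trans hn le_sup_right) le_sup_left)
  rw [pow_mul]
  calc ((V ⊔ W) ^ n) ^ m ≤ (W ⊔ J) ^ m := sub_pow_mono h1 m
    _ ≤ W ^ m ⊔ J := sup_pow_le hW hJ m
    _ ≤ J := sup_le hm le_rfl

/-- ideals of `A` which are nilpotent modulo `J` -/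
def NilMod (A J V : Submodule F R) : Prop := IsId A V ∧ ∃ n : ℕ, V ^ n ≤ J

theorem exists_nilMod {A J : Submodule F R} (hJ : IsId A J)
    (hsum : A ≤ ⨆ V : {V : Submodule F R // IsId A V ∧ V * V ≤ J}, V.1)
    (x : R) (hx : x ∈ A) : ∃ V, NilMod A J V ∧ x ∈ V := by
  have hx' := hsum hx
  induction hx' using Submodule.iSup_induction' with
  | mem V x hxV => exact ⟨V.1, ⟨V.2.1, 2, by rw [pow_two]; exact V.2.2⟩, hxV⟩
  | zero => exact ⟨J, ⟨hJ, 1, by rw [pow_one]⟩, J.zero_mem⟩
  | add x y hx' hy' ihx ihy =>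
    have hle : (⨆ V : {V : Submodule F R // IsId A V ∧ V * V ≤ J}, V.1) ≤ A :=
      iSup_le fun V => V.2.1.le
    obtain ⟨V, ⟨hV, n, hn⟩, hxV⟩ := ihx (hle hx')
    obtain ⟨W, ⟨hW, m, hm⟩, hyW⟩ := ihy (hle hy')
    exact ⟨V ⊔ W, ⟨hV.sup hW, n * m, nil_sup hJ hV hW hn hm⟩,
      Submodule.add_mem _ (Submodule.mem_sup_left hxV) (Submodule.mem_sup_right hyW)⟩

theorem exists_nilMod_fg {A J : Submodule F R} (hJ : IsId A J)
    (hsum : A ≤ ⨆ V : {V : Submodule F R // IsId A V ∧ V * V ≤ J}, V.1)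
    (Y : Submodule F R) (hY : Y.FG) (hYA : Y ≤ A) : ∃ V, NilMod A J V ∧ Y ≤ V := by
  classical
  obtain ⟨s, rfl⟩ := hY
  induction s using Finset.induction_on with
  | empty =>
    refine ⟨J, ⟨hJ, 1, by rw [pow_one]⟩, ?_⟩
    simp
  | insert a s _ ih =>
    rw [Finset.coe_insert, Submodule.span_insert] at hYA ⊢
    obtain ⟨V, ⟨hV, n, hn⟩, hsV⟩ := ih (le_trans le_sup_right hYA)
    obtain ⟨W, ⟨hW, m, hm⟩, haW⟩ := exists_nilMod hJ hsum a
      (hYA (Submodule.mem_sup_left (Submodule.mem_span_singleton_self a)))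
    refine ⟨W ⊔ V, ⟨hW.sup hV, m * n, nil_sup hJ hW hV hm hn⟩, ?_⟩
    exact sup_le_sup ((Submodule.span_singleton_le_iff_mem _ _).2 haW) hsV

/-- a subspace with finite-dimensional image has a finite-dimensional complement to the kernel -/
theorem exists_fg_compl {W : Type*} [AddCommGroup W] [Module F W] (φ : R →ₗ[F] W)
    (A : Submodule F R) (h : (A.map φ).FG) :
    ∃ Y : Submodule F R, Y.FG ∧ Y ≤ A ∧ A ≤ (A ⊓ LinearMap.ker φ) ⊔ Y := by
  classical
  obtain ⟨s, hs⟩ := h
  have hsub : (s : Set W) ⊆ φ '' (A : Set R) := by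
    intro x hx
    have : x ∈ A.map φ := by rw [← hs]; exact Submodule.subset_span hx
    exact this
  obtain ⟨t, ht, hts⟩ := Finset.subset_set_image_iff.1 hsub
  refine ⟨Submodule.span F (t : Set R), ⟨t, rfl⟩, Submodule.span_le.2 ht, ?_⟩
  intro a ha
  have h1 : φ a ∈ (Submodule.span F (t : Set R)).map φ := by
    rw [Submodule.map_span, ← Finset.coe_image, hts, hs]
    exact Submodule.mem_map_of_mem ha
  obtain ⟨y, hy, hya⟩ := h1
  have hyA : y ∈ A := Submodule.span_le.2 ht hy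
  rw [Submodule.mem_sup]
  refine ⟨a - y, ⟨A.sub_mem ha hyA, ?_⟩, y, hy, by abel⟩
  change φ (a - y) = 0
  rw [map_sub, hya, sub_self]

theorem fg_of_le {W : Type*} [AddCommGroup W] [Module F W] {X Y : Submodule F W} (h : X ≤ Y)
    (hY : Y.FG) : X.FG := by
  have : Module.Finite F Y := Module.Finite.iff_fg.2 hY
  exact Submodule.FG.of_le_of_isNoetherian h

/-- for a finite subset `G` of `P`, where `P` is finite-dimensional modulo `M`, `A` is spanned by the
elements `a` with `G a ⊆ M` and a finite-dimensional subspace -/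
theorem exists_fg_killer {A P M : Submodule F R} (hPA : P * A ≤ P) (hfin : (P.map M.mkQ).FG)
    (G : Finset R) (hG : (G : Set R) ⊆ P) :
    ∃ Y : Submodule F R, Y.FG ∧ Y ≤ A ∧
      ∀ a ∈ A, ∃ b ∈ A, ∃ y ∈ Y, a = b + y ∧ ∀ q ∈ G, q * b ∈ M := by
  classical
  induction G using Finset.induction_on with
  | empty =>
    exact ⟨⊥, Submodule.fg_bot, bot_le, fun a ha => ⟨a, ha, 0, Submodule.zero_mem _, by simp,
      by simp⟩⟩
  | insert q G _ ih =>
    have hG' : (G : Set R) ⊆ P := fun x hx => hG (by simp only [Finset.coe_insert]; exact Or.inr hx)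
    have hq : q ∈ P := hG (by simp)
    obtain ⟨Y, hYfg, hYA, hY⟩ := ih hG'
    -- the space of the `b`
    set K : Submodule F R :=
      { carrier := {b | b ∈ A ∧ ∀ q ∈ G, q * b ∈ M}
        add_mem' := by
          intro a b ha hb
          exact ⟨A.add_mem ha.1 hb.1, fun q hq => by
            rw [mul_add]; exact M.add_mem (ha.2 q hq) (hb.2 q hq)⟩
        zero_mem' := ⟨A.zero_mem, fun q _ => by rw [mul_zero]; exact M.zero_mem⟩
        smul_mem' := by
          intro c a ha
          exact ⟨A.smul_mem c ha.1, fun q hq => by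
            rw [mul_smul_comm]; exact M.smul_mem c (ha.2 q hq)⟩ } with hK
    set φ : R →ₗ[F] R ⧸ M := M.mkQ ∘ₗ LinearMap.mulLeft F q with hφ
    have hKfg : (K.map φ).FG := by
      refine fg_of_le ?_ hfin
      rintro _ ⟨a, ha, rfl⟩
      exact ⟨q * a, hPA (Submodule.mul_mem_mul hq ha.1), rfl⟩
    obtain ⟨Y', hY'fg, hY'K, hY'⟩ := exists_fg_compl φ K hKfg
    refine ⟨Y ⊔ Y', hYfg.sup hY'fg, sup_le hYA (fun y hy => (hY'K hy).1), ?_⟩
    intro a ha
    obtain ⟨b, hb, y, hy, rfl, hqb⟩ := hY a ha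
    obtain ⟨b', hb', y', hy', hbb⟩ := Submodule.mem_sup.1 (hY' (show b ∈ K from ⟨hb, hqb⟩))
    refine ⟨b', hb'.1.1, y + y', Submodule.add_mem _ (Submodule.mem_sup_left hy)
      (Submodule.mem_sup_right hy'), by rw [← hbb]; abel, ?_⟩
    intro p hp
    rw [Finset.mem_insert] at hp
    rcases hp with rfl | hp
    · have h2 : φ b' = 0 := hb'.2
      rw [hφ, LinearMap.comp_apply, LinearMap.mulLeft_apply,
        Submodule.mkQ_apply, Submodule.Quotient.mk_eq_zero] at h2
      exact h2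
    · exact hb'.1.2 p hp

section step

variable {A J : Submodule F R}

/-- the elements `z` with `w z A ⊆ J` -/
def MM (A J : Submodule F R) (w : R) : Submodule F R where
  carrier := {z | ∀ a ∈ A, w * z * a ∈ J}
  add_mem' := by
    intro x y hx hy a ha
    rw [mul_add, add_mul]
    exact J.add_mem (hx a ha) (hy a ha)
  zero_mem' := by
    intro a _
    rw [mul_zero, zero_mul]
    exact J.zero_mem
  smul_mem' := by
    intro c x hx a ha
    rw [mul_smul_comm, smul_mul_assoc]
    exact J.smul_mem c (hx a ha)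

theorem exists_V (hAA : A * A = A)
    (hsum : A ≤ ⨆ V : {V : Submodule F R // IsId A V ∧ V * V ≤ J}, V.1) (w : R)
    (hw : ∃ a ∈ A, w * a ∉ J) :
    ∃ V, IsId A V ∧ V * V ≤ J ∧ ∃ p ∈ A * V * A, ∃ a ∈ A, w * p * a ∉ J := by
  by_contra hcon
  push Not at hcon
  obtain ⟨a, ha, hwa⟩ := hw
  apply hwa
  have h1 : A ≤ A * (⨆ V : {V : Submodule F R // IsId A V ∧ V * V ≤ J}, V.1) * A * A := by
    calc A = A * A * A * A := by rw [hAA, hAA, hAA]
      _ ≤ _ := mul_le_mul_left (mul_le_mul_left (mul_le_mul_right hsum _) _) _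
  have h2 : A * (⨆ V : {V : Submodule F R // IsId A V ∧ V * V ≤ J}, V.1) * A * A ≤
      J.comap (LinearMap.mulLeft F w) := by
    rw [Submodule.mul_iSup, Submodule.iSup_mul, Submodule.iSup_mul]
    refine iSup_le fun V => ?_
    rw [Submodule.mul_le]
    intro p hp a ha
    change w * (p * a) ∈ J
    rw [← mul_assoc]
    exact hcon V.1 V.2.1 V.2.2 p hp a ha
  exact h2 (h1 ha)

theorem exists_z (hAA : A * A = A) (hJ : IsId A J)
    (hsum : A ≤ ⨆ V : {V : Submodule F R // IsId A V ∧ V * V ≤ J}, V.1) (w : R)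
    (hw : ∃ a ∈ A, w * a ∉ J) (hwJ : ∀ j ∈ J, w * j ∈ J) (f : R →ₗ[F] F)
    (T : Submodule F R) (hT : T.FG) :
    ∃ V, IsId A V ∧ V * V ≤ J ∧ ∃ z ∈ V, (∃ a ∈ A, w * z * a ∉ J) ∧
      ∀ s ∈ T, ∀ t ∈ T, f (s * z * t) = 0 := by
  classical
  obtain ⟨V, hV, hVV, p₀, hp₀, a₀, ha₀, hpa⟩ := exists_V hAA hsum w hw
  refine ⟨V, hV, hVV, ?_⟩
  set P := A * V * A with hP
  have hPV : P ≤ V := le_trans (mul_le_mul_left hV.left _) hV.right
  have hPA : P * A = P := by rw [hP, mul_assoc, hAA]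
  set M := MM A J w with hM
  have hMA : M * A ≤ M := by
    rw [Submodule.mul_le]
    intro m hm b hb a ha
    have h1 : b * a ∈ A := by rw [← hAA]; exact Submodule.mul_mem_mul hb ha
    have h2 := hm (b * a) h1
    have h3 : w * (m * b) * a = w * m * (b * a) := by simp only [mul_assoc]
    rw [h3]
    exact h2
  by_contra hcon
  push Not at hcon
  obtain ⟨G1, hG1⟩ := hT
  set Φ : R →ₗ[F] ((G1 × G1) → F) := LinearMap.pi fun g =>
    f ∘ₗ LinearMap.mulRight F (g.2 : R) ∘ₗ LinearMap.mulLeft F (g.1 : R) with hΦ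
  obtain ⟨Q, hQ, hQP, hPQ⟩ := exists_fg_compl Φ P (IsNoetherian.noetherian _)
  have hNM : P ⊓ LinearMap.ker Φ ≤ M := by
    rintro z ⟨hz, hzΦ⟩
    have hzΦ' : Φ z = 0 := hzΦ
    have hg : ∀ g ∈ G1, ∀ g' ∈ G1, f (g * z * g') = 0 := by
      intro g hg g' hg'
      exact congrFun hzΦ' (⟨g, hg⟩, ⟨g', hg'⟩)
    have hst : ∀ s ∈ T, ∀ t ∈ T, f (s * z * t) = 0 := by
      intro s hs t ht
      rw [← hG1] at hs ht
      induction hs using Submodule.span_induction with
      | mem g hg1 =>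
        induction ht using Submodule.span_induction with
        | mem g' hg2 => exact hg g hg1 g' hg2
        | zero => rw [mul_zero, map_zero]
        | add x y _ _ hx hy => rw [mul_add, map_add, hx, hy, add_zero]
        | smul c x _ hx => rw [mul_smul_comm, map_smul, hx, smul_zero]
      | zero => rw [zero_mul, zero_mul, map_zero]
      | add x y _ _ hx hy => rw [add_mul, add_mul, map_add, hx, hy, add_zero]
      | smul c x _ hx => rw [smul_mul_assoc, smul_mul_assoc, map_smul, hx, smul_zero]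
    intro a ha
    by_contra hwz
    obtain ⟨s, hs, t, ht, hne⟩ := hcon z (hPV hz) ⟨a, ha, hwz⟩
    exact hne (hst s hs t ht)
  have hPM : P ≤ M ⊔ Q := le_trans hPQ (sup_le_sup_right hNM _)
  have hfin : (P.map M.mkQ).FG := by
    refine fg_of_le (Y := Q.map M.mkQ) ?_ (hQ.map _)
    rintro _ ⟨x, hx, rfl⟩
    obtain ⟨m, hm, q, hq, rfl⟩ := Submodule.mem_sup.1 (hPM hx)
    refine ⟨q, hq, ?_⟩
    rw [map_add, show M.mkQ m = 0 from (Submodule.Quotient.mk_eq_zero M).2 hm, zero_add]
  obtain ⟨G, hG⟩ := hQ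
  have hGP : (G : Set R) ⊆ P := fun g hg => hQP (by rw [← hG]; exact Submodule.subset_span hg)
  obtain ⟨Y, hYfg, hYA, hY⟩ := exists_fg_killer hPA.le hfin G hGP
  obtain ⟨V₀, ⟨hV₀, n, hn⟩, hYV⟩ := exists_nilMod_fg hJ hsum Y hYfg hYA
  have hstep : P ≤ P * V₀ ⊔ M := by
    conv_lhs => rw [← hPA]
    rw [Submodule.mul_le]
    intro p hp a ha
    obtain ⟨b, hb, y, hy, rfl, hqb⟩ := hY a ha
    obtain ⟨m, hm, q, hq, rfl⟩ := Submodule.mem_sup.1 (hPM hp)
    have hqb' : q * b ∈ M := by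
      rw [← hG] at hq
      have h1 : Submodule.span F (G : Set R) ≤ M.comap (LinearMap.mulRight F b) :=
        Submodule.span_le.2 fun g hg => hqb g hg
      exact h1 hq
    rw [mul_add, add_comm]
    refine Submodule.add_mem _ (Submodule.mem_sup_left (Submodule.mul_mem_mul hp (hYV hy)))
      (Submodule.mem_sup_right ?_)
    rw [add_mul]
    exact M.add_mem (hMA (Submodule.mul_mem_mul hm hb)) hqb'
  have hpow : ∀ k : ℕ, P ≤ P * V₀ ^ k ⊔ M := by
    intro k
    induction k with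
    | zero => rw [pow_zero, mul_one]; exact le_sup_left
    | succ k ih =>
      refine le_trans ih (sup_le ?_ le_sup_right)
      refine le_trans (mul_le_mul_left hstep _) ?_
      rw [Submodule.sup_mul]
      refine sup_le_sup ?_ (IsId.mul_pow_le hV₀.le hMA k)
      rw [mul_assoc, ← pow_succ']
  have hPM' : P ≤ M := by
    refine le_trans (hpow n) (sup_le (le_trans (mul_le_mul_right hn _) ?_) le_rfl)
    rw [Submodule.mul_le]
    intro p hp j hj a ha
    have h1 : p * j ∈ J := hJ.left (Submodule.mul_mem_mul (hV.le (hPV hp)) hj)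
    exact hJ.right (Submodule.mul_mem_mul (hwJ _ h1) ha)
  exact hpa (hPM' hp₀ a₀ ha₀)

end step

section chain

variable {A J : Submodule F R}

/-- the invariant of the construction of a proper non-nilpotent subalgebra -/
structure Inv (A J : Submodule F R) (c : R) (n : ℕ) (S : Submodule F R) (w : R) : Prop where
  J_le : J ≤ S
  le_A : S ≤ A
  mul : S * S ≤ S
  c_notMem : c ∉ S
  fin : ∃ T : Submodule F R, T.FG ∧ T ≤ A ∧ S ≤ J ⊔ T
  nz : ∃ a ∈ A, w * a ∉ J
  wJ : ∀ j ∈ J, w * j ∈ J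
  list : ∃ l : List R, (∀ x ∈ l, x ∈ S) ∧ l.length = n ∧ l.prod = w

theorem Inv.step (hAA : A * A = A) (hJ : IsId A J)
    (hsum : A ≤ ⨆ V : {V : Submodule F R // IsId A V ∧ V * V ≤ J}, V.1) {c : R} {n : ℕ}
    {S : Submodule F R} {w : R} (h : Inv A J c n S w) :
    ∃ S' w', S ≤ S' ∧ Inv A J c (n + 1) S' w' := by
  obtain ⟨f, hfc, hfS⟩ := Submodule.exists_dual_map_eq_bot_of_notMem h.c_notMem inferInstance
  obtain ⟨T, hT, hTA, hST⟩ := h.fin
  obtain ⟨V, hV, hVV, z, hz, hnz, hfz⟩ := exists_z hAA hJ hsum w h.nz h.wJ f (1 ⊔ T)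
    ((by rw [Submodule.one_eq_span]; exact Submodule.fg_span_singleton 1 :
      (1 : Submodule F R).FG).sup hT)
  have hzA : z ∈ A := hV.le hz
  have hfS' : S ≤ LinearMap.ker f := by
    intro x hx
    have h1 : f x ∈ S.map f := Submodule.mem_map_of_mem hx
    rw [hfS] at h1
    exact h1
  set Z : Submodule F R := Submodule.span F {z} with hZ
  have hZV : Z ≤ V := (Submodule.span_singleton_le_iff_mem _ _).2 hz
  have hZA : Z ≤ A := le_trans hZV hV.le
  set E : Submodule F R := (1 ⊔ S) * Z * (1 ⊔ S) with hE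
  have h1S : S * (1 ⊔ S) ≤ 1 ⊔ S := by
    rw [Submodule.mul_sup, mul_one]
    exact sup_le le_sup_right (le_trans h.mul le_sup_right)
  have h1S' : (1 ⊔ S) * S ≤ 1 ⊔ S := by
    rw [Submodule.sup_mul, one_mul]
    exact sup_le le_sup_right (le_trans h.mul le_sup_right)
  have hEV : E ≤ V := by
    have h1 : (1 ⊔ S) * Z ≤ V := by
      rw [Submodule.sup_mul, one_mul]
      exact sup_le hZV (le_trans (mul_le_mul' h.le_A hZV) hV.left)
    calc E ≤ V * (1 ⊔ S) := mul_le_mul_left h1 _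
      _ ≤ V := by
        rw [Submodule.mul_sup, mul_one]
        exact sup_le le_rfl (le_trans (mul_le_mul_right h.le_A _) hV.right)
  have hSE : S * E ≤ E := by
    rw [hE, ← mul_assoc, ← mul_assoc]
    exact mul_le_mul_left (mul_le_mul_left h1S _) _
  have hES : E * S ≤ E := by
    rw [hE, mul_assoc]
    exact mul_le_mul_right h1S' _
  have hEE : E * E ≤ S := le_trans (le_trans (mul_le_mul' hEV hEV) hVV) h.J_le
  have hzE : z ∈ E := by
    have h1 : (1 : R) ∈ (1 ⊔ S : Submodule F R) :=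
      Submodule.mem_sup_left (Submodule.one_le.1 le_rfl)
    have := Submodule.mul_mem_mul (Submodule.mul_mem_mul h1
      (Submodule.mem_span_singleton_self (R := F) z)) h1
    simpa using this
  -- `E` modulo `J`
  set T₁ : Submodule F R := 1 ⊔ T with hT₁
  have hET : E ≤ J ⊔ T₁ * Z * T₁ := by
    have h1 : (1 ⊔ S : Submodule F R) ≤ J ⊔ T₁ :=
      sup_le (le_trans le_sup_left le_sup_right)
        (le_trans hST (sup_le_sup_left le_sup_right _))
    have hT₁J : T₁ * J ≤ J := by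
      rw [hT₁, Submodule.sup_mul, one_mul]
      exact sup_le le_rfl (le_trans (mul_le_mul_left hTA _) hJ.left)
    have hJT₁ : J * T₁ ≤ J := by
      rw [hT₁, Submodule.mul_sup, mul_one]
      exact sup_le le_rfl (le_trans (mul_le_mul_right hTA _) hJ.right)
    have h2 : (1 ⊔ S) * Z ≤ J ⊔ T₁ * Z := by
      refine le_trans (mul_le_mul_left h1 _) ?_
      rw [Submodule.sup_mul]
      exact sup_le_sup_right (le_trans (mul_le_mul_right hZA _) hJ.right) _
    have hZJ : T₁ * Z * J ≤ J := by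
      rw [mul_assoc]
      exact le_trans (mul_le_mul_right (le_trans (mul_le_mul_left hZA _) hJ.left) _) hT₁J
    calc E ≤ (J ⊔ T₁ * Z) * (J ⊔ T₁) := mul_le_mul' h2 h1
      _ ≤ J ⊔ T₁ * Z * T₁ := by
        have e1 : J * (J ⊔ T₁) = J * J ⊔ J * T₁ := Submodule.mul_sup _ _ _
        have e2 : T₁ * Z * (J ⊔ T₁) = T₁ * Z * J ⊔ T₁ * Z * T₁ := Submodule.mul_sup _ _ _
        rw [Submodule.sup_mul, e1, e2]
        refine sup_le (sup_le ?_ ?_) (sup_le ?_ le_sup_right)
        · exact le_trans (le_trans (mul_le_mul_right hJ.le _) hJ.right) le_sup_left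
        · exact le_trans hJT₁ le_sup_left
        · exact le_trans hZJ le_sup_left
  have hTZ : T₁ * Z * T₁ ≤ LinearMap.ker f := by
    rw [Submodule.mul_le]
    intro x hx t ht
    have hx' : T₁ * Z ≤ LinearMap.ker (f ∘ₗ LinearMap.mulRight F t) := by
      rw [Submodule.mul_le]
      intro s hs y hy
      obtain ⟨r, rfl⟩ := Submodule.mem_span_singleton.1 hy
      change f (s * (r • z) * t) = 0
      rw [mul_smul_comm, smul_mul_assoc, map_smul, hfz s hs t ht, smul_zero]
    exact hx' hx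
  have hEf : E ≤ LinearMap.ker f :=
    le_trans hET (sup_le (le_trans h.J_le hfS') hTZ)
  refine ⟨S ⊔ E, w * z, le_sup_left, ?_, ?_, ?_, ?_, ?_, hnz, ?_, ?_⟩
  · exact le_trans h.J_le le_sup_left
  · exact sup_le h.le_A (le_trans hEV hV.le)
  · rw [Submodule.sup_mul, Submodule.mul_sup, Submodule.mul_sup]
    exact sup_le (sup_le (le_trans h.mul le_sup_left) (le_trans hSE le_sup_right))
      (sup_le (le_trans hES le_sup_right) (le_trans hEE le_sup_left))
  · intro hc
    exact hfc ((sup_le hfS' hEf) hc)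
  · have hZfg : Z.FG := Submodule.fg_span_singleton z
    have hT₁fg : T₁.FG := (by rw [Submodule.one_eq_span]; exact Submodule.fg_span_singleton 1 :
      (1 : Submodule F R).FG).sup hT
    refine ⟨T ⊔ T₁ * Z * T₁, hT.sup ((hT₁fg.mul hZfg).mul hT₁fg), sup_le hTA ?_, ?_⟩
    · have h1 : T₁ * Z ≤ A := by
        rw [hT₁, Submodule.sup_mul, one_mul]
        refine sup_le hZA (le_trans (mul_le_mul' hTA hZA) hAA.le)
      refine le_trans (mul_le_mul_left h1 _) ?_
      rw [hT₁, Submodule.mul_sup, mul_one]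
      exact sup_le le_rfl (le_trans (mul_le_mul_right hTA _) hAA.le)
    · refine sup_le (le_trans hST (sup_le_sup_left le_sup_left _)) (le_trans hET ?_)
      exact sup_le_sup_left le_sup_right _
  · intro j hj
    rw [mul_assoc]
    exact h.wJ _ (hJ.left (Submodule.mul_mem_mul hzA hj))
  · obtain ⟨l, hl, hlen, hprod⟩ := h.list
    refine ⟨l ++ [z], ?_, by simp [hlen], by simp [hprod]⟩
    intro x hx
    rw [List.mem_append, List.mem_singleton] at hx
    rcases hx with hx | rfl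
    · exact Submodule.mem_sup_left (hl x hx)
    · exact Submodule.mem_sup_right hzE

/-- **Relative theorem.** If all proper subalgebras of `A = A²` are nilpotent and `A` is the sum of
ideals whose squares are contained in the ideal `J`, then `A = J`. -/
theorem rel (hAA : A * A = A) (hJ : IsId A J)
    (H : ∀ B : Submodule F R, B ≤ A → B * B ≤ B → B ≠ A →
      ∃ n : ℕ, ∀ l : List R, (∀ x ∈ l, x ∈ B) → l.length = n → l.prod = 0)
    (hsum : A ≤ ⨆ V : {V : Submodule F R // IsId A V ∧ V * V ≤ J}, V.1) : A ≤ J := by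
  intro c hcA
  by_contra hcJ
  have h0 : Inv A J c 0 J 1 :=
    { J_le := le_rfl
      le_A := hJ.le
      mul := le_trans (mul_le_mul_left hJ.le _) hJ.left
      c_notMem := hcJ
      fin := ⟨⊥, Submodule.fg_bot, bot_le, le_sup_left⟩
      nz := ⟨c, hcA, by rwa [one_mul]⟩
      wJ := fun j hj => by rwa [one_mul]
      list := ⟨[], by simp, rfl, rfl⟩ }
  let X := {p : ℕ × Submodule F R × R // Inv A J c p.1 p.2.1 p.2.2}
  have hstep : ∀ x : X, ∃ y : X, x.1.2.1 ≤ y.1.2.1 ∧ y.1.1 = x.1.1 + 1 := by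
    rintro ⟨⟨n, S, w⟩, h⟩
    obtain ⟨S', w', hS, h'⟩ := h.step hAA hJ hsum
    exact ⟨⟨⟨n + 1, S', w'⟩, h'⟩, hS, rfl⟩
  choose g hg1 hg2 using hstep
  let s : ℕ → X := fun n => Nat.rec ⟨⟨0, J, 1⟩, h0⟩ (fun _ x => g x) n
  have hs : ∀ n, s (n + 1) = g (s n) := fun n => rfl
  have hsn : ∀ n, (s n).1.1 = n := by
    intro n
    induction n with
    | zero => rfl
    | succ n ih => rw [hs, hg2, ih]
  have hmono : Monotone (fun n => (s n).1.2.1) :=
    monotone_nat_of_le_succ fun n => by rw [hs]; exact hg1 (s n)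
  set B : Submodule F R := ⨆ n, (s n).1.2.1 with hB
  have hdir : Directed (· ≤ ·) (fun n => (s n).1.2.1) := hmono.directed_le
  have hBA : B ≤ A := iSup_le fun n => (s n).2.le_A
  have hBB : B * B ≤ B := by
    rw [Submodule.mul_le]
    intro x hx y hy
    obtain ⟨i, hi⟩ := (Submodule.mem_iSup_of_directed _ hdir).1 hx
    obtain ⟨j, hj⟩ := (Submodule.mem_iSup_of_directed _ hdir).1 hy
    refine (Submodule.mem_iSup_of_directed _ hdir).2 ⟨max i j, ?_⟩
    exact (s (max i j)).2.mul (Submodule.mul_mem_mul (hmono (le_max_left i j) hi)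
      (hmono (le_max_right i j) hj))
  have hcB : c ∉ B := by
    intro hc
    obtain ⟨i, hi⟩ := (Submodule.mem_iSup_of_directed _ hdir).1 hc
    exact (s i).2.c_notMem hi
  have hne : B ≠ A := by
    intro h
    exact hcB (by rw [h]; exact hcA)
  obtain ⟨n, hn⟩ := H B hBA hBB hne
  obtain ⟨l, hl, hlen, hprod⟩ := (s n).2.list
  have hz := hn l (fun x hx => (Submodule.mem_iSup_of_directed _ hdir).2 ⟨n, hl x hx⟩)
    (by rw [hlen, hsn])
  obtain ⟨a, ha, hwa⟩ := (s n).2.nz
  apply hwa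
  rw [← hprod, hz, zero_mul]
  exact J.zero_mem

end chain

end Pool.Agent.E8helper9.NL
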